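import Pool.Agent.Lib.MP_d9bc60_nt.TH.J2Final

set_option autoImplicit false

namespace Pool.Agent.Results.MP_d9bc60_nt.AlmostAllThreshold

/-- The representations of `n` as `f(p₁) + p₂` with primes `p₁, p₂`, `f = x² + b x + c`. -/
def Reps (b c n : ℤ) : Set (ℕ × ℕ) :=
  {x | x.1.Prime ∧ x.2.Prime ∧ n = (x.1 : ℤ) ^ 2 + b * (x.1 : ℤ) + c + (x.2 : ℤ)}

/-- The odd integers `n` of `(c, c + X]` with fewer than `A` representations. -/
def Few (b c : ℤ) (A X : ℝ) : Set ℤ :=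
  {n | Odd n ∧ c < n ∧ (n : ℝ) ≤ c + X ∧ ((Reps b c n).ncard : ℝ) < A}

/-- The integers `n` of `(c, c + X]` that are values of `f` or have a representation. -/
def Hit (b c : ℤ) (X : ℝ) : Set ℤ :=
  {n | c < n ∧ (n : ℝ) ≤ c + X ∧ ((∃ x : ℤ, x ^ 2 + b * x + c = n) ∨ (Reps b c n).Nonempty)}

/-- Sharp threshold.  (i) For every `ε > 0` and `A` there is `K` such that for large `B` and
`K B log B log log B ≤ X ≤ B²`, all but at most `ε B` of the integers `b` of `[1, B]` not divisible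
by `3` have the following property: for every `c` with `b + c` odd, all but at most `ε X` of the odd
`n` of `(c, c + X]` have at least `A` representations.  (ii) Below a constant multiple of
`b log b log log b` almost no `n` is a value of `f` or represented, for every large `b` and every
`c`. -/
theorem result :
    (∀ ε A : ℝ, 0 < ε → ∃ K B₀ : ℝ, 0 < K ∧ ∀ B X : ℝ, B₀ ≤ B →
      K * B * Real.log B * Real.log (Real.log B) ≤ X → X ≤ B ^ 2 →
        (({b : ℤ | 1 ≤ b ∧ (b : ℝ) ≤ B ∧ ¬ (3 : ℤ) ∣ b ∧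
          ∃ c : ℤ, Odd (b + c) ∧ ε * X < ((Few b c A X).ncard : ℝ)}.ncard : ℕ) : ℝ) ≤ ε * B) ∧
    (∀ ε : ℝ, 0 < ε → ∃ κ B₀ : ℝ, 0 < κ ∧ ∀ b c : ℤ, B₀ ≤ b →
      ∀ X : ℝ, (b : ℝ) ≤ X → X ≤ κ * b * Real.log b * Real.log (Real.log b) →
        ((Hit b c X).ncard : ℝ) ≤ ε * X) := by
  constructor
  · intro ε A hε
    obtain ⟨K, B₀, hK, h⟩ := Pool.Agent.Lib.MP_d9bc60_nt.TH.almost_all_threshold ε A hε
    refine ⟨K, B₀, hK, ?_⟩
    intro B X hB h1 h2
    exact h B X hB h1 h2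
  · intro ε hε
    obtain ⟨κ, hκ, B, h⟩ := Pool.Agent.Lib.MP_d9bc60_nt.many ε hε
    refine ⟨κ, B, hκ, ?_⟩
    intro b c hb X hbX hX
    have h1 := (h b c hb X hbX hX).2
    have h2 : Hit b c X = Pool.Agent.Lib.MP_d9bc60_nt.Good b c X := by
      ext n
      constructor
      · rintro ⟨h3, h4, h5⟩
        refine ⟨h3, h4, ?_⟩
        rcases h5 with h5 | ⟨⟨p, q⟩, hp, hq, hn⟩
        · exact Or.inl h5
        · exact Or.inr ⟨p, q, hp, hq, hn⟩
      · rintro ⟨h3, h4, h5⟩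
        refine ⟨h3, h4, ?_⟩
        rcases h5 with h5 | ⟨p, q, hp, hq, hn⟩
        · exact Or.inl h5
        · exact Or.inr ⟨⟨p, q⟩, hp, hq, hn⟩
    rw [h2]
    exact h1

end Pool.Agent.Results.MP_d9bc60_nt.AlmostAllThreshold
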