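import Pool.Agent.Lib.MP_d9bc60_nt.AQ.QFin

/-! Almost primes for every odd `n`, uniformly in the admissible polynomial `f = x^2 + b x + c`. -/

set_option autoImplicit false

/-- For `0 < δ ≤ 1/2` there is `N₀` such that for all admissible `f = x^2 + b x + c` and all odd `n` with
`N = n - c ≥ N₀` and `|b| ≤ N^(1-δ)` there are at least `min(√N, N/|b|)/(log N)^5` primes `p` for which
`n - f(p)` is positive and has at most `4.48 + 2.24/δ` prime factors, counted with multiplicity. -/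
theorem Pool.Agent.Results.MP_d9bc60_nt.AlmostPrime.result (δ : ℝ) (hδ : 0 < δ) (hδ2 : δ ≤ 1 / 2) :
    ∃ N₀ : ℝ, ∀ b c n : ℤ, Odd (b + c) → ¬ (3 : ℤ) ∣ b → Odd n → N₀ ≤ (n : ℝ) - c →
      |(b : ℝ)| ≤ ((n : ℝ) - c) ^ (1 - δ) →
      min (Real.sqrt ((n : ℝ) - c)) (((n : ℝ) - c) / |(b : ℝ)|) / Real.log ((n : ℝ) - c) ^ 5 ≤
        (({p : ℕ | p.Prime ∧ 0 < n - ((p : ℤ) ^ 2 + b * p + c) ∧
          (ArithmeticFunction.cardFactors (n - ((p : ℤ) ^ 2 + b * p + c)).toNat : ℝ) ≤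
            4.48 + 2.24 / δ}.ncard : ℕ) : ℝ) :=
  Pool.Agent.Lib.MP_d9bc60_nt.AP.almost_prime δ hδ hδ2
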