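import Pool.Agent.Lib.MP_d9bc60_nt.AQ.QWinB

/-! Every odd `n` and every window for `b`: a positive proportion of the polynomials represents `n`. -/

set_option autoImplicit false

open Classical in
/-- For every `ε > 0` there are `κ > 0` and `N₀` such that for all odd `n` and all `c` with
`N = n - c ≥ N₀`, and all `U` with `log N log log N ≤ U ≤ N^(1/2-ε)`: at least `κ N/U` of the integers
`b` in `[N/(8U), N/U]` are such that `f = x^2 + b x + c` is admissible, `n` is not a value of `f`, and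
`n = f(p₁) + p₂` for at least `κ (N/b)/(log(N/b) log N)` pairs of primes. -/
theorem Pool.Agent.Results.MP_d9bc60_nt.EveryWindow.result (ε : ℝ) (hε : 0 < ε) :
    ∃ κ : ℝ, 0 < κ ∧ ∃ N₀ : ℝ, ∀ n c : ℤ, Odd n → N₀ ≤ (n : ℝ) - c → ∀ U : ℕ,
    Real.log ((n : ℝ) - c) * Real.log (Real.log ((n : ℝ) - c)) ≤ U →
    (U : ℝ) ≤ ((n : ℝ) - c) ^ (1 / 2 - ε) →
    κ * (((n : ℝ) - c) / U) ≤
      (((Finset.Icc 1 ⌊((n : ℝ) - c) / U⌋₊).filter (fun b : ℕ =>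
        ((n : ℝ) - c) / (8 * U) ≤ b ∧ Odd ((b : ℤ) + c) ∧ ¬ (3 : ℤ) ∣ b ∧
        (¬ ∃ x : ℤ, x ^ 2 + b * x + c = n) ∧
        κ * (((n : ℝ) - c) / b) / (Real.log (((n : ℝ) - c) / b) * Real.log ((n : ℝ) - c)) ≤
          (({x : ℕ × ℕ | x.1.Prime ∧ x.2.Prime ∧
            n = ((x.1 : ℤ) ^ 2 + b * (x.1 : ℤ) + c) + (x.2 : ℤ)}.ncard : ℕ) : ℝ))).card : ℝ) :=
  Pool.Agent.Lib.MP_d9bc60_nt.AP.every_window ε hε
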