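import Pool.Agent.Lib.MP_d9bc60_nt.VA.VEnd
import Pool.Agent.Lib.MP_d9bc60_nt.VA.VFew

set_option autoImplicit false

namespace Pool.Agent.Results.MP_d9bc60_nt.UniformAsymptotic

/-- `f(x) = x² + b x + c`. -/
def f (b c x : ℤ) : ℤ := x ^ 2 + b * x + c

/-- `∑ log p₁ log p₂` over the representations `n = f(p₁) + p₂` with primes `p₁ ≤ P` and `p₂`. -/
noncomputable def R (b c : ℤ) (P : ℕ) (n : ℤ) : ℝ :=
  ∑ p ∈ (Finset.Icc 1 P).filter (fun p : ℕ => p.Prime ∧ (n - f b c p).toNat.Prime),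
    Real.log p * Real.log ((n - f b c p : ℤ) : ℝ)

/-- `#{x ∈ [1, P] : f(x) < n}`. -/
def N (b c : ℤ) (P : ℕ) (n : ℤ) : ℕ := ((Finset.Icc 1 P).filter (fun x : ℕ => f b c x < n)).card

/-- `ω(l) = #{x mod l : x (n - f(x)) ≡ 0 (mod l)}`. -/
def om (b c n : ℤ) (l : ℕ) : ℕ :=
  ((Finset.range l).filter (fun x : ℕ => (l : ℤ) ∣ x * (n - f b c x))).card

/-- The singular product `∏ (1 - ω(l)/l)/(1 - 1/l)²` over the primes `l ≤ z`. -/
noncomputable def S (b c : ℤ) (z : ℝ) (n : ℤ) : ℝ :=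
  ∏ l ∈ (Finset.Icc 1 ⌊z⌋₊).filter Nat.Prime, (1 - (om b c n l : ℝ) / l) / (1 - 1 / (l : ℝ)) ^ 2

open Classical in
/-- The odd `n` of `(c, c + X]` for which the asymptotic formula `R = S N (1 + O((log X)^(-A)))`
fails, `z = (log X)^C`. -/
noncomputable def Bad (b c : ℤ) (X P C : ℕ) (A : ℝ) : Finset ℤ :=
  (Finset.Ioc c (c + X)).filter (fun n : ℤ => Odd n ∧
    S b c (Real.log X ^ C) n * N b c P n / Real.log X ^ A <
      |R b c P n - S b c (Real.log X ^ C) n * N b c P n|)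

/-- The representations of `n` as `f(p₁) + p₂` with primes `p₁, p₂`. -/
def Reps (b c n : ℤ) : Set (ℕ × ℕ) :=
  {p | p.1.Prime ∧ p.2.Prime ∧ n = f b c p.1 + p.2}

/-- The odd integers `n` of `(c, c + X]` with fewer than `min(√m, m/|b|)/(log m)^3` representations,
where `m = n - c`. -/
def Few (b c : ℤ) (X : ℝ) : Set ℤ :=
  {n | Odd n ∧ c < n ∧ (n : ℝ) ≤ c + X ∧
    ((Reps b c n).ncard : ℝ) <
      min (Real.sqrt ((n : ℝ) - c)) (((n : ℝ) - c) / |(b : ℝ)|) / Real.log ((n : ℝ) - c) ^ 3}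

/-- Uniform form of van der Corput's theorem.  Let `ε > 0` and `A` be real.

(i) There is `C₀` such that for all `C ≥ C₀` there is `X₀` such that for all `X ≥ X₀`, every
admissible `f = x² + b x + c` with `|b| ≤ X^(8/9-ε)` and every `P` with
`min(√X, X/|b|)/(log X)^A ≤ P ≤ min(√X, X/|b|)`, the asymptotic formula
`|R - S N| ≤ S N/(log X)^A` for the number of representations `n = f(p₁) + p₂`, `p₁ ≤ P`, holds for all
but at most `X/(log X)^A` odd `n` of `(c, c + X]`.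

(ii) If `b > 0` and `P = ⌊min(√X, X/|b|)⌋`, then every representation of every `n ≤ c + X` has `p₁ ≤ P`.

(iii) For all real `X ≥ X₀` and all such `f`, all but at most `X/(log X)^A` odd `n` of `(c, c + X]` have
at least `min(√m, m/|b|)/(log m)^3` representations, `m = n - c`. -/
theorem result (ε A : ℝ) (hε : 0 < ε) :
    (∃ C₀ : ℕ, ∀ C : ℕ, C₀ ≤ C → ∃ X₀ : ℕ, ∀ X P : ℕ, X₀ ≤ X → ∀ b c : ℤ, Odd (b + c) →
      ¬ (3 : ℤ) ∣ b → |(b : ℝ)| ≤ (X : ℝ) ^ (8 / 9 - ε) →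
      (P : ℝ) ≤ min (Real.sqrt X) (X / |(b : ℝ)|) →
      min (Real.sqrt X) (X / |(b : ℝ)|) ≤ P * Real.log X ^ A →
      ((Bad b c X P C A).card : ℝ) ≤ X / Real.log X ^ A) ∧
    (∀ b c n : ℤ, ∀ X : ℕ, 0 < b → n ≤ c + X → ∀ p ∈ Reps b c n,
      p.1 ≤ ⌊min (Real.sqrt X) (X / |(b : ℝ)|)⌋₊) ∧
    (∃ X₀ : ℝ, ∀ X : ℝ, X₀ ≤ X → ∀ b c : ℤ, Odd (b + c) →
      ¬ (3 : ℤ) ∣ b → |(b : ℝ)| ≤ X ^ (8 / 9 - ε) →
      (Few b c X).Finite ∧ ((Few b c X).ncard : ℝ) ≤ X / Real.log X ^ A) := by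
  refine ⟨?_, ?_, ?_⟩
  · obtain ⟨C₀, h⟩ := Pool.Agent.Lib.MP_d9bc60_nt.VA.asymp ε A hε
    refine ⟨C₀, fun C hC => ?_⟩
    obtain ⟨X₀, h1⟩ := h C hC
    refine ⟨X₀, fun X P hX b c hbc h3 hb hP1 hP2 => ?_⟩
    have h2 := h1 X P hX b c hbc h3 hb hP1 hP2
    refine le_trans (Nat.cast_le.2 (Finset.card_le_card ?_)) h2
    intro n hn
    unfold Bad at hn
    rw [Finset.mem_filter] at hn ⊢
    exact hn
  · rintro b c n X hb hn ⟨p, q⟩ ⟨hp, hq, h⟩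
    simp only at hp hq h ⊢
    unfold f at h
    have hp1 : (1 : ℤ) ≤ p := by exact_mod_cast hp.one_le
    have hq1 : (1 : ℤ) ≤ q := by exact_mod_cast hq.one_le
    have h1 : (p : ℤ) ^ 2 + b * p ≤ X := by linarith
    have h2 : (p : ℤ) ^ 2 ≤ X := by nlinarith
    have h3 : b * (p : ℤ) ≤ X := by nlinarith
    have hbr : (0 : ℝ) < b := by exact_mod_cast hb
    apply Nat.le_floor
    refine le_min ?_ ?_
    · apply Real.le_sqrt_of_sq_le
      exact_mod_cast h2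
    · rw [abs_of_pos hbr, le_div_iff₀ hbr, mul_comm]
      exact_mod_cast h3
  · obtain ⟨X₀, h⟩ := Pool.Agent.Lib.MP_d9bc60_nt.VA.uniform2 ε A hε
    refine ⟨X₀, ?_⟩
    intro X hX b c hbc h3 hb
    refine ⟨?_, h X hX b c hbc h3 hb⟩
    refine (Set.finite_Icc c (⌊(c : ℝ) + X⌋)).subset ?_
    rintro n ⟨_, h1, h2, _⟩
    exact ⟨h1.le, Int.le_floor.2 h2⟩

end Pool.Agent.Results.MP_d9bc60_nt.UniformAsymptotic
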